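import Pool.Agent.H2.CTN.SMB

/-!
# Board ctn (MP_b57703), row AD1

Artin-Schreier extensions of a wild extension, with the derivation.
-/

set_option autoImplicit false
set_option linter.unusedSectionVars false

namespace Pool.CND

open Finset

namespace AD1H

/-! ## Orders of Laurent series -/

section ser

variable {k : Type} [Field k]

/-- order at least `n` -/
def GeS (a : LaurentSeries k) (n : ℤ) : Prop := a = 0 ∨ n ≤ a.order

theorem geS_neg {a : LaurentSeries k} {n : ℤ} (h : GeS a n) : GeS (-a) n := by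
  rcases h with h | h
  · exact Or.inl (by rw [h, neg_zero])
  · exact Or.inr (by rw [HahnSeries.order_neg]; exact h)

theorem ord_add_of_lt {a b : LaurentSeries k} (ha : a ≠ 0) (h : GeS b (a.order + 1)) :
    a + b ≠ 0 ∧ (a + b).order = a.order := by
  by_cases hb : b = 0
  · rw [hb, add_zero]; exact ⟨ha, rfl⟩
  have h1 : a.order + 1 ≤ b.order := h.resolve_left hb
  have hs : a + b ≠ 0 := by
    intro hs
    have : b = -a := by linear_combination hs
    rw [this, HahnSeries.order_neg] at h1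
    omega
  refine ⟨hs, le_antisymm ?_ ?_⟩
  · by_contra hc
    rw [not_le] at hc
    have h2 := HahnSeries.min_order_le_order_add (x := a + b) (y := -b)
      (by rwa [add_neg_cancel_right])
    rw [add_neg_cancel_right, HahnSeries.order_neg] at h2
    have h3 : a.order + 1 ≤ min (a + b).order b.order := le_min (by omega) h1
    omega
  · have h2 := HahnSeries.min_order_le_order_add (x := a) (y := b) hs
    have h3 : a.order ≤ min a.order b.order := le_min le_rfl (by omega)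
    omega

end ser

/-! ## The derivation -/

section der

variable {p : ℕ} {k L : Type} [Field k] [Field L] [Algebra k L] {P : Place k L}
  {φ : L →ₐ[k] LaurentSeries k} {D : L → LaurentSeries k}

theorem D_zero (h : Dv p k L P φ D) : D 0 = 0 := by
  have := h.add 0 0
  rw [add_zero] at this
  exact left_eq_add.1 this

theorem D_neg (h : Dv p k L P φ D) (x : L) : D (-x) = -D x := by
  have := h.add x (-x)
  rw [add_neg_cancel, D_zero h] at this
  exact (neg_eq_of_add_eq_zero_right this.symm).symm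

theorem D_sub (h : Dv p k L P φ D) (x y : L) : D (x - y) = D x - D y := by
  rw [sub_eq_add_neg, h.add, D_neg h, sub_eq_add_neg]

theorem D_pow (h : Dv p k L P φ D) (x : L) (n : ℕ) :
    D (x ^ (n + 1)) = ((n + 1 : ℕ) : LaurentSeries k) * φ x ^ n * D x := by
  induction n with
  | zero => simp
  | succ n ih =>
    rw [pow_succ, h.mul, ih, map_pow]
    push_cast
    ring

theorem D_pow_p (h : Dv p k L P φ D) (hp : p.Prime) (hch : CharP k p) (x : L) :
    D (x ^ p) = 0 := by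
  have : CharP (LaurentSeries k) p :=
    charP_of_injective_algebraMap (algebraMap k (LaurentSeries k)).injective p
  obtain ⟨n, rfl⟩ : ∃ n, p = n + 1 := ⟨p - 1, by have := hp.pos; omega⟩
  rw [D_pow h, CharP.cast_eq_zero, zero_mul, zero_mul]

end der

/-! ## Sums of depths -/

section sums

variable {G : Type} [Group G] [Fintype G]

theorem sm_split (b : G → ℤ) (M W : Subgroup G) (hMW : M ≤ W) :
    sm b {h | h ∈ W ∧ h ≠ 1} = sm b {h | h ∈ M ∧ h ≠ 1} + sm b {g | g ∈ W ∧ g ∉ M} := by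
  classical
  have e1 := SMBH.sm_filter b (fun h => h ∈ W ∧ h ≠ 1)
  have e2 := SMBH.sm_filter b (fun h => h ∈ M ∧ h ≠ 1)
  have e3 := SMBH.sm_filter b (fun g => g ∈ W ∧ g ∉ M)
  rw [e1, e2, e3, ← Finset.sum_union]
  · refine Finset.sum_congr ?_ fun _ _ => rfl
    ext x
    simp only [Finset.mem_filter, Finset.mem_univ, true_and, Finset.mem_union]
    constructor
    · rintro ⟨h1, h2⟩
      by_cases h3 : x ∈ M
      · exact Or.inl ⟨h3, h2⟩
      · exact Or.inr ⟨h1, h3⟩
    · rintro (⟨h1, h2⟩ | ⟨h1, h2⟩)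
      · exact ⟨hMW h1, h2⟩
      · exact ⟨h1, fun h => h2 (h ▸ M.one_mem)⟩
  · rw [Finset.disjoint_left]
    intro x hx hx'
    exact (Finset.mem_filter.1 hx').2.2 (Finset.mem_filter.1 hx).2.1

theorem sm_nonneg (b : G → ℤ) (M W : Subgroup G) (hb : ∀ g ∈ W, g ≠ 1 → 1 ≤ b g) :
    0 ≤ sm b {g | g ∈ W ∧ g ∉ M} := by
  classical
  rw [SMBH.sm_filter b (fun g => g ∈ W ∧ g ∉ M)]
  refine Finset.sum_nonneg fun x hx => ?_
  have h1 := (Finset.mem_filter.1 hx).2
  have := hb x h1.1 (fun h => h1.2 (h ▸ M.one_mem))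
  linarith

/-- the sum over the complement, constant coset sums -/
theorem sm_const_coset (b : G → ℤ) (H M : Subgroup G) (hHM : H ≤ M) (E : ℤ)
    (h : ∀ g ∈ M, g ∉ H → sm b {x | g⁻¹ * x ∈ H} = Nat.card H * E) :
    sm b {g | g ∈ M ∧ g ∉ H} = (Nat.card M - Nat.card H : ℤ) * E := by
  classical
  have h1 := SMBH.sum_compl b H M hHM
  have h2 : sm (fun x => sm b {y | x⁻¹ * y ∈ H}) {x | x ∈ M ∧ x ∉ H} =
      sm (fun _ : G => (Nat.card H : ℤ) * E) {x | x ∈ M ∧ x ∉ H} := by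
    rw [SMBH.sm_filter _ (fun x => x ∈ M ∧ x ∉ H), SMBH.sm_filter _ (fun x => x ∈ M ∧ x ∉ H)]
    refine Finset.sum_congr rfl fun x hx => ?_
    have h3 := (Finset.mem_filter.1 hx).2
    exact h x h3.1 h3.2
  rw [h2, UMRH.sm_const _ M H hHM] at h1
  have h0 : (Nat.card H : ℤ) ≠ 0 := by
    have := Nat.card_pos (α := H)
    exact_mod_cast this.ne'
  refine mul_left_cancel₀ h0 ?_
  linear_combination -h1

end sums

/-- index `p` -/
theorem card_as {k L G : Type} [Field k] [Field L] [Algebra k L] [Group G] [Fintype G]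
    {p : ℕ} (hp : p.Prime) (hch : CharP k p) (ρ : G →* (L ≃ₐ[k] L)) (M H : Subgroup G) (y : L)
    (hH : ∀ g, g ∈ H ↔ g ∈ M ∧ ρ g y = y)
    (hM : ∀ g ∈ M, ∃ c : k, c ^ p = c ∧ ρ g y = y + algebraMap k L c) (hne : H ≠ M) :
    Nat.card M = p * Nat.card H := by
  classical
  have : Fact p.Prime := ⟨hp⟩
  choose c hc hcy using fun g : M => hM g g.2
  have hinj := (algebraMap k L).injective
  have hadd : ∀ g h : M, c (g * h) = c g + c h := by
    intro g h
    apply hinj
    have h1 := hcy (g * h)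
    rw [Subgroup.coe_mul, map_mul, AlgEquiv.mul_apply, hcy h, map_add, hcy g,
      AlgEquiv.commutes] at h1
    rw [map_add]
    linear_combination -h1
  have hmem : ∀ g : M, c g ∈ (⊥ : Subfield k) := fun g =>
    (Subfield.mem_bot_iff_pow_eq_self (p := p) k).2 (hc g)
  have h1c : c 1 = 0 := by
    have := hadd 1 1
    rw [mul_one] at this
    exact left_eq_add.1 this
  let ψ : M →* Multiplicative (⊥ : Subfield k) :=
    { toFun := fun g => Multiplicative.ofAdd ⟨c g, hmem g⟩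
      map_one' := by
        have : (⟨c 1, hmem 1⟩ : (⊥ : Subfield k)) = 0 := Subtype.ext h1c
        rw [this]
        rfl
      map_mul' := fun g h => by
        have : (⟨c (g * h), hmem (g * h)⟩ : (⊥ : Subfield k)) =
            ⟨c g, hmem g⟩ + ⟨c h, hmem h⟩ := Subtype.ext (hadd g h)
        rw [this]
        rfl }
  have hψ : ∀ g, ψ g = 1 ↔ c g = 0 := by
    intro g
    constructor
    · intro h
      have h1 : (⟨c g, hmem g⟩ : (⊥ : Subfield k)) = 0 := Multiplicative.ofAdd.injective h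
      exact congrArg Subtype.val h1
    · intro h
      have h1 : (⟨c g, hmem g⟩ : (⊥ : Subfield k)) = 0 := Subtype.ext h
      show Multiplicative.ofAdd (⟨c g, hmem g⟩ : (⊥ : Subfield k)) = 1
      rw [h1]
      rfl
  have hcard : Nat.card (Multiplicative (⊥ : Subfield k)) = p := by
    rw [Nat.card_congr Multiplicative.toAdd]
    exact Subfield.card_bot k p
  have hHM : H ≤ M := fun g hg => ((hH g).1 hg).1
  have hs : Function.Surjective ψ := by
    rw [← MonoidHom.range_eq_top]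
    have h3 := Subgroup.card_subgroup_dvd_card ψ.range
    rw [hcard] at h3
    rcases (Nat.dvd_prime hp).1 h3 with h4 | h4
    · exfalso
      have h5 := Subgroup.eq_bot_of_card_eq _ h4
      apply hne
      refine le_antisymm hHM fun g hg => (hH g).2 ⟨hg, ?_⟩
      have h6 : ψ ⟨g, hg⟩ ∈ ψ.range := ⟨_, rfl⟩
      rw [h5, Subgroup.mem_bot, hψ] at h6
      have := hcy ⟨g, hg⟩
      rw [h6, map_zero, add_zero] at this
      exact this
    · exact Subgroup.eq_top_of_card_eq _ (h4.trans hcard.symm)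
  have h1 := UMRH.card_ker M H ψ hs (fun g => by
    rw [hH]
    refine ⟨fun h => ⟨h.1, ?_⟩, ?_⟩
    · rw [hψ]
      have h5 : y = y + algebraMap k L (c ⟨g, h.1⟩) := h.2.symm.trans (hcy ⟨g, h.1⟩)
      exact (map_eq_zero _).1 (left_eq_add.1 h5)
    · rintro ⟨h1, h2⟩
      refine ⟨h1, ?_⟩
      rw [hψ] at h2
      have := hcy ⟨g, h1⟩
      rw [h2, map_zero, add_zero] at this
      exact this)
  rwa [hcard] at h1

/-- the norm of the uniformiser -/
theorem norm_pi {k L G : Type} [Field k] [Field L] [Algebra k L] [Group G] [Fintype G]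
    (P : Place k L) (ρ : G →* (L ≃ₐ[k] L)) (M : Subgroup G) (hfix : ∀ g ∈ M, Fixes P (ρ g)) :
    ∃ m : L, m ≠ 0 ∧ (∀ g ∈ M, ρ g m = m) ∧ P.ord m = Nat.card M := by
  classical
  refine ⟨∏ g : M, ρ g P.pi, ?_, ?_, ?_⟩
  · rw [Finset.prod_ne_zero_iff]
    intro g _ h
    exact P.pi_ne ((map_eq_zero _).1 h)
  · intro g hg
    rw [map_prod]
    refine Fintype.prod_equiv (Equiv.mulLeft (⟨g, hg⟩ : M)) _ _ fun x => ?_
    rw [Equiv.coe_mulLeft, Subgroup.coe_mul, map_mul, AlgEquiv.mul_apply]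
  · have h : ∀ s : Finset M, (∏ g ∈ s, ρ g P.pi) ≠ 0 ∧ P.ord (∏ g ∈ s, ρ g P.pi) = s.card := by
      intro s
      induction s using Finset.induction_on with
      | empty => simp [P.ord_one]
      | insert a s ha ih =>
        have h0 : ρ a P.pi ≠ 0 := fun h => P.pi_ne ((map_eq_zero _).1 h)
        rw [Finset.prod_insert ha]
        refine ⟨mul_ne_zero h0 ih.1, ?_⟩
        rw [P.ord_mul _ _ h0 ih.1, ih.2, hfix a a.2 _ P.pi_ne, P.ord_pi,
          Finset.card_insert_of_notMem ha]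
        push_cast
        ring
    rw [(h univ).2, Finset.card_univ, Nat.card_eq_fintype_card]

end AD1H

open AD1H in
/-- **AD1** -/
theorem ad1_thm (hDF1 : S_DF1) (hDV0 : S_DV0) (hHBX : S_HBX) (hTOT : S_TOT) (hRAM : S_RAM)
    (hLON : S_LON) : S_AD1 := by
  classical
  intro p k L G _ _ _ _ _ _ P ρ W M H y g₀ g₁ D₀ hp hch hinj hram hMW hH hM hy hg₀ hg₀0 hord hpD
    hD1 hg₁ hS
  have : Fact p.Prime := ⟨hp⟩
  have : CharP L p := charP_of_injective_algebraMap (algebraMap k L).injective p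
  obtain ⟨φ, D, hD⟩ := hDV0 p k L P hp hch
  obtain ⟨b, hbdef⟩ : ∃ b : G → ℤ, b = fun g => P.b (ρ g) := ⟨_, rfl⟩
  rw [← hbdef] at hg₁ hS ⊢
  obtain ⟨S, hSdef⟩ : ∃ S : ℤ, S = sm b {g | g ∈ W ∧ g ∉ M} := ⟨_, rfl⟩
  rw [← hSdef] at hg₁ hS ⊢
  have hp0 : (0 : ℤ) < p := by exact_mod_cast hp.pos
  have hp2 : (2 : ℤ) ≤ p := by exact_mod_cast hp.two_le
  have hfix : ∀ g ∈ W, Fixes P (ρ g) := fun g hg => (hram g hg).1
  have hb : ∀ g ∈ W, g ≠ 1 → 1 ≤ b g := by
    intro g hg hg1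
    rcases ((hRAM k L G P ρ g 1 le_rfl).1 (hram g hg)).2 with h | h
    · exact absurd (hinj (h.trans (map_one ρ).symm)) hg1
    · rw [hbdef]
      exact_mod_cast h
  have hS0 : 0 ≤ S := by
    rw [hSdef]
    exact sm_nonneg b M W hb
  have hWsplit := sm_split b M W hMW
  rw [← hSdef] at hWsplit
  obtain ⟨E, hE⟩ : ∃ E : ℤ, E = ((D₀ * Nat.card W : ℕ) : ℤ) := ⟨_, rfl⟩
  have hE' : E = (D₀ : ℤ) * Nat.card W := by rw [hE]; push_cast; ring
  have hEpos : 0 < E := by
    rw [hE]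
    have := Nat.card_pos (α := W)
    exact_mod_cast Nat.mul_pos (by omega) this
  rw [← hE] at hord hg₁
  rw [← hE'] at hS ⊢
  -- the derivative of g₀
  have hDF : ∀ (H' : Subgroup G) (z : L) (n : ℤ), H' ≤ W → z ≠ 0 → (∀ h ∈ H', ρ h z = z) →
      P.ord z = n * Nat.card H' →
      (D z = 0 ∨ P.ord z - 1 + sm b {h | h ∈ H' ∧ h ≠ 1} ≤ (D z).order) ∧
      (¬ (p : ℤ) ∣ n → D z ≠ 0 ∧
        (D z).order = P.ord z - 1 + sm b {h | h ∈ H' ∧ h ≠ 1}) := by
    intro H' z n h1 h2 h3 h4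
    have := hDF1 p k L G P φ D ρ H' z n hp hch hinj (fun g hg => hram g (h1 hg)) hD h2 h3 h4
    rw [← hbdef] at this
    exact this
  have hge : ∀ (H' : Subgroup G) (z : L), H' ≤ W → z ≠ 0 → (∀ h ∈ H', ρ h z = z) →
      (D z = 0 ∨ P.ord z - 1 + sm b {h | h ∈ H' ∧ h ≠ 1} ≤ (D z).order) := by
    intro H' z h1 h2 h3
    obtain ⟨n, hn⟩ := hTOT k L G P ρ H' hinj (fun g hg => hfix g (h1 hg)) z h2 h3
    exact (hDF H' z n h1 h2 h3 (by rw [hn]; ring)).1
  have hDg₀ : D g₀ ≠ 0 ∧ (D g₀).order = -E - 1 + sm b {h | h ∈ M ∧ h ≠ 1} + S := by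
    have h1 := (hDF W g₀ (-(D₀ : ℤ)) le_rfl hg₀0 hg₀ (by rw [hord, hE']; ring)).2 (by
      rw [dvd_neg]
      exact_mod_cast hpD)
    refine ⟨h1.1, ?_⟩
    rw [h1.2, hord, hWsplit]
    ring
  -- g₁ is fixed by M
  have hcp : ∀ c : k, c ^ p = c → (algebraMap k L c) ^ p = algebraMap k L c := by
    intro c hc
    rw [← map_pow, hc]
  have hg₁fix : ∀ g ∈ M, ρ g g₁ = g₁ := by
    intro g hg
    obtain ⟨c, hc, hcy⟩ := hM g hg
    have h1 : g₁ = y ^ p - y - g₀ := by rw [hy]; ring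
    rw [h1, map_sub, map_sub, map_pow, hcy, hg₀ g (hMW hg), add_pow_char, hcp c hc]
    ring
  have hDg₁ : GeS (D g₁) ((D g₀).order + 1) := by
    by_cases h0 : g₁ = 0
    · left
      rw [h0]
      exact D_zero hD
    · rcases hge M g₁ hMW h0 hg₁fix with h1 | h1
      · exact Or.inl h1
      · right
        have h2 := hg₁.resolve_left h0
        rw [hDg₀.2]
        linarith
  -- the derivative of y
  have hDy : D y ≠ 0 ∧ (D y).order = -E - 1 + sm b {h | h ∈ M ∧ h ≠ 1} + S := by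
    have h1 : -D y = D g₀ + D g₁ := by
      rw [← hD.add, ← hy, D_sub hD, D_pow_p hD hp hch, zero_sub]
    obtain ⟨h2, h3⟩ := ord_add_of_lt hDg₀.1 hDg₁
    rw [← h1] at h2 h3
    rw [HahnSeries.order_neg, hDg₀.2] at h3
    exact ⟨neg_ne_zero.1 h2, h3⟩
  -- the order of y
  have hz : g₀ + g₁ ≠ 0 ∧ P.ord (g₀ + g₁) = -E := by
    have h1 : P.Ge g₁ (P.ord g₀ + 1) := by
      rcases hg₁ with h1 | h1
      · exact Or.inl h1
      · right
        rw [hord]
        linarith
    obtain ⟨h2, h3⟩ := P.ord_add_of_lt hg₀0 h1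
    exact ⟨h2, h3.trans hord⟩
  obtain ⟨hy0, hyord⟩ := UMRH.as_ord P hp.two_le hy hz.1 (by rw [hz.2]; linarith)
  rw [hz.2] at hyord
  have hlt : -E + S < P.ord y := by
    have h1 : (p : ℤ) * (-E + S) < p * P.ord y := by
      rw [hyord]
      linarith
    exact lt_of_mul_lt_mul_left h1 hp0.le
  have hHM : H ≤ M := fun g hg => ((hH g).1 hg).1
  have hne : H ≠ M := by
    intro h
    have h1 : ∀ g ∈ M, ρ g y = y := fun g hg => ((hH g).1 (h ▸ hg)).2
    rcases hge M y hMW hy0 h1 with h2 | h2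
    · exact hDy.1 h2
    · rw [hDy.2] at h2
      linarith
  refine ⟨hne, ?_⟩
  have hcard := card_as hp hch ρ M H y hH hM hne
  obtain ⟨w, hwM, hwH⟩ : ∃ w ∈ M, w ∉ H := by
    by_contra hcon
    push Not at hcon
    exact hne (le_antisymm hHM hcon)
  -- moving
  have hmove : ∀ g ∈ M, g ∉ H → ∃ c : k, c ≠ 0 ∧ ρ g y = y + algebraMap k L c := by
    intro g hg hgH
    obtain ⟨c, -, hcy⟩ := hM g hg
    refine ⟨c, ?_, hcy⟩
    rintro rfl
    rw [map_zero, add_zero] at hcy
    exact hgH ((hH g).2 ⟨hg, hcy⟩)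
  -- the order of y - h is negative
  have hneg : ∀ h : L, (∀ g ∈ M, ρ g h = h) → y - h ≠ 0 ∧ P.ord (y - h) ≤ -1 := by
    intro h hh
    obtain ⟨c, hc0, hcy⟩ := hmove w hwM hwH
    have h1 : ρ w (y - h) - (y - h) = algebraMap k L c := by
      rw [map_sub, hcy, hh w hwM]
      ring
    have hc0' : algebraMap k L c ≠ 0 := fun h => hc0 ((map_eq_zero _).1 h)
    have h2 : y - h ≠ 0 := by
      intro h2
      rw [h2, map_zero, sub_zero] at h1
      exact hc0' h1.symm
    refine ⟨h2, ?_⟩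
    have h3 : P.Ge (ρ w P.pi - P.pi) (1 + 1) := by
      rcases (hram w (hMW hwM)).2 P.pi P.pi_ne P.ord_pi with h4 | h4
      · exact Or.inl (by rw [h4, sub_self])
      · exact Or.inr (by exact_mod_cast h4)
    rcases hLON k L P (ρ w) P.pi 1 (hfix w (hMW hwM)) P.pi_ne P.ord_pi (by norm_num) h3
      (y - h) with h4 | h4
    · rw [h1] at h4
      have h5 := (P.ge_iff hc0' _).1 h4
      rw [P.ord_const c hc0] at h5
      linarith
    · exact absurd h4 h2
  obtain ⟨N, ⟨h, hhfix, hhN⟩, hmax⟩ := Int.exists_greatest_of_bdd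
    (P := fun n : ℤ => ∃ h : L, (∀ g ∈ M, ρ g h = h) ∧ P.ord (y - h) = n)
    ⟨-1, fun z ⟨h, h1, h2⟩ => h2 ▸ (hneg h h1).2⟩
    ⟨P.ord (y - 0), 0, fun g _ => map_zero _, rfl⟩
  obtain ⟨y', hy'⟩ : ∃ y' : L, y' = y - h := ⟨_, rfl⟩
  rw [← hy'] at hhN
  have hy'0 : y' ≠ 0 := hy' ▸ (hneg h hhfix).1
  have hy'neg : P.ord y' ≤ -1 := hy' ▸ (hneg h hhfix).2
  have hy'fix : ∀ g ∈ H, ρ g y' = y' := by
    intro g hg
    rw [hy', map_sub, ((hH g).1 hg).2, hhfix g (hHM hg)]
  have hHpos : (0 : ℤ) < Nat.card H := by exact_mod_cast Nat.card_pos (α := H)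
  obtain ⟨n, hn⟩ := hTOT k L G P ρ H hinj (fun g hg => hfix g (hMW (hHM hg))) y' hy'0 hy'fix
  have hnneg : n < 0 := by
    by_contra hcon
    rw [not_lt] at hcon
    have := mul_nonneg hHpos.le hcon
    linarith
  obtain ⟨D', hD'⟩ : ∃ D' : ℕ, n = -(D' : ℤ) := ⟨n.natAbs, by omega⟩
  have hD'1 : 1 ≤ D' := by omega
  rw [hD'] at hn
  -- D' is prime to p
  have hD'p : ¬ p ∣ D' := by
    rintro ⟨e, he⟩
    obtain ⟨m, hm0, hmfix, hmord⟩ := norm_pi P ρ M (fun g hg => hfix g (hMW hg))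
    obtain ⟨μ, hμ⟩ : ∃ μ : L, μ = m ^ (-(e : ℤ)) := ⟨_, rfl⟩
    have hμ0 : μ ≠ 0 := hμ ▸ zpow_ne_zero _ hm0
    have hμord : P.ord μ = P.ord y' := by
      rw [hμ, P.ord_zpow hm0, hmord, hn, he, hcard]
      push_cast
      ring
    have hμfix : ∀ g ∈ M, ρ g μ = μ := by
      intro g hg
      rw [hμ, map_zpow₀, hmfix g hg]
    have h1 : P.ord (y' / μ) = 0 := by
      rw [P.ord_div hy'0 hμ0, hμord, sub_self]
    obtain ⟨a, ha⟩ := P.residue (y' / μ) (div_ne_zero hy'0 hμ0) h1.ge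
    have hfix2 : ∀ g ∈ M, ρ g (h + algebraMap k L a * μ) = h + algebraMap k L a * μ := by
      intro g hg
      rw [map_add, map_mul, AlgEquiv.commutes, hhfix g hg, hμfix g hg]
    have h2 := hneg _ hfix2
    have h3 : y - (h + algebraMap k L a * μ) = (y' / μ - algebraMap k L a) * μ := by
      rw [sub_mul, div_mul_cancel₀ _ hμ0, hy']
      ring
    rcases ha with ha | ha
    · rw [h3, ha, sub_self, zero_mul] at h2
      exact h2.1 rfl
    · have h4 : y' / μ - algebraMap k L a ≠ 0 := by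
        intro h4
        rw [h3, h4, zero_mul] at h2
        exact h2.1 rfl
      have h5 := hmax _ ⟨_, hfix2, rfl⟩
      rw [h3, P.ord_mul _ _ h4 hμ0, hμord, hhN] at h5
      linarith
  -- the coset sums
  have hnormal : ∀ g ∈ M, ∀ n ∈ H, g * n * g⁻¹ ∈ H := by
    intro g hg n hn
    refine (hH _).2 ⟨M.mul_mem (M.mul_mem hg (hHM hn)) (M.inv_mem hg), ?_⟩
    obtain ⟨c, -, hcy⟩ := hM g⁻¹ (M.inv_mem hg)
    have h1 : ρ g (ρ g⁻¹ y) = y := by
      rw [← AlgEquiv.mul_apply, ← map_mul, mul_inv_cancel, map_one, AlgEquiv.one_apply]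
    rw [map_mul, map_mul, AlgEquiv.mul_apply, AlgEquiv.mul_apply, hcy, map_add,
      AlgEquiv.commutes, ((hH n).1 hn).2, ← hcy, h1]
  have hcos : ∀ g ∈ M, g ∉ H → sm b {x | g⁻¹ * x ∈ H} = Nat.card H * (D' : ℤ) := by
    intro g hg hgH
    obtain ⟨c, hc0, hcy⟩ := hmove g hg hgH
    have := hHBX p k L G P ρ H M g y' c D' hp hch hinj hHM (fun g hg => hram g (hMW hg)) hnormal
      hg hgH hy'fix hy'0 hc0 (by
        rw [hy', map_sub, hcy, hhfix g hg]
        ring) (by
        rw [hn]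
        push_cast
        ring) hD'p hD'1
    rw [← hbdef] at this
    exact this
  have hMsplit := sm_split b H M hHM
  rw [sm_const_coset b H M hHM D' hcos] at hMsplit
  -- the derivative of y'
  have hDy' := (hDF H y' (-(D' : ℤ)) (hHM.trans hMW) hy'0 hy'fix (by rw [hn]; ring)).2 (by
    rw [dvd_neg]
    exact_mod_cast hD'p)
  have hDh : GeS (-D h) ((D y).order + 1) := by
    refine geS_neg ?_
    by_cases h0 : h = 0
    · left
      rw [h0]
      exact D_zero hD
    · rcases hge M h hMW h0 hhfix with h1 | h1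
      · exact Or.inl h1
      · right
        have h2 : P.ord y ≤ P.ord h := by
          have h3 : P.ord y ≤ P.ord y' := by
            have := hmax _ ⟨0, fun g _ => map_zero _, rfl⟩
            rwa [sub_zero, ← hhN] at this
          have h4 : P.Ge (y - y') (P.ord y) := P.ge_sub (P.ge_ord y) (Or.inr h3)
          have h5 : y - y' = h := by rw [hy']; ring
          rw [h5] at h4
          exact (P.ge_iff h0 _).1 h4
        rw [hDy.2]
        linarith
  have hfin : (D y').order = (D y).order := by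
    obtain ⟨-, h2⟩ := ord_add_of_lt hDy.1 hDh
    rw [hy', D_sub hD, sub_eq_add_neg]
    exact h2
  rw [hDy'.2, hDy.2, hMsplit, hn] at hfin
  refine ⟨D', ?_, hcos⟩
  linear_combination -hfin

end Pool.CND
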