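import Pool.Agent.H37.CTN.Stmts
import Pool.Agent.H72.CTL.UMR

/-!
# Board ctn (MP_b57703), row SMB

The sum of the depths over the complement of the common kernel of Artin-Schreier characters.
-/

set_option autoImplicit false
set_option linter.unusedSectionVars false

namespace Pool.CND

open Finset

namespace SMBH

open UMRH

theorem sm_filter {G : Type} [Group G] [Fintype G] (b : G → ℤ) (Q : G → Prop) [DecidablePred Q] :
    sm b {x | Q x} = ∑ x ∈ univ.filter (fun x => Q x), b x := by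
  unfold sm
  refine Finset.sum_congr ?_ fun x _ => rfl
  ext x
  simp

/-- the sum over the complement of a subgroup, from the coset sums -/
theorem sum_compl {G : Type} [Group G] [Fintype G] (b : G → ℤ) (N W : Subgroup G) (hNW : N ≤ W) :
    sm (fun x => sm b {y | x⁻¹ * y ∈ N}) {x | x ∈ W ∧ x ∉ N} =
      Nat.card N * sm b {x | x ∈ W ∧ x ∉ N} := by
  classical
  have h1 : sm (fun x => sm b {y | x⁻¹ * y ∈ N}) {x | x ∈ W ∧ x ∉ N} =
      ∑ x ∈ univ.filter (fun x : G => x ∈ {x | x ∈ W ∧ x ∉ N}),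
        ∑ n ∈ univ.filter (fun n : G => n ∈ N), b (x * n) := by
    unfold sm
    refine Finset.sum_congr (by congr) fun x _ => ?_
    exact sm_coset b N x
  rw [h1, Finset.sum_comm]
  have h2 : ∀ n ∈ univ.filter (fun n : G => n ∈ N),
      ∑ x ∈ univ.filter (fun x : G => x ∈ {x | x ∈ W ∧ x ∉ N}), b (x * n) =
        sm b {x | x ∈ W ∧ x ∉ N} := by
    intro n hn
    have hnN : n ∈ N := (Finset.mem_filter.1 hn).2
    have hnW : n ∈ W := hNW hnN
    have h3 : sm b {x | x ∈ W ∧ x ∉ N} =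
        ∑ x ∈ univ.filter (fun x : G => x ∈ {x | x ∈ W ∧ x ∉ N}), b x := by
      unfold sm
      exact Finset.sum_congr (by congr) fun x _ => rfl
    rw [h3]
    refine Finset.sum_bij' (fun x _ => x * n) (fun x _ => x * n⁻¹) ?_ ?_ ?_ ?_ ?_
    · intro x hx
      simp only [Finset.mem_filter, Finset.mem_univ, true_and, Set.mem_ofPred_eq] at hx ⊢
      exact ⟨W.mul_mem hx.1 hnW, fun h => hx.2 ((N.mul_mem_cancel_right hnN).1 h)⟩
    · intro x hx
      simp only [Finset.mem_filter, Finset.mem_univ, true_and, Set.mem_ofPred_eq] at hx ⊢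
      exact ⟨W.mul_mem hx.1 (W.inv_mem hnW),
        fun h => hx.2 ((N.mul_mem_cancel_right (N.inv_mem hnN)).1 h)⟩
    · intro x _
      simp
    · intro x _
      simp
    · intro x _
      rfl
  rw [Finset.sum_congr rfl h2, Finset.sum_const, nsmul_eq_mul]
  congr 1
  exact UMRH.card_filter N

section count

variable (p : ℕ) [Fact p.Prime] {F : Type} [Field F] [Algebra (ZMod p) F] [Finite F] {r : ℕ}

theorem psi_comm (a v : Fin r → F) : psi p a v = psi p v a := by
  unfold psi
  congr 1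
  exact Finset.sum_congr rfl fun i _ => mul_comm _ _

open scoped Classical in
/-- the number of the functionals which do not vanish at `v` -/
theorem count (v : Fin r → F) (hv : v ≠ 0) [Fintype (Fin r → F)] :
    (p : ℤ) * ((univ.filter fun a : Fin r → F => psi p a v ≠ 0).card : ℤ) =
      ((p : ℤ) - 1) * (Fintype.card (Fin r → F) : ℤ) := by
  have hp : p.Prime := Fact.out
  let ψ : (Fin r → F) →+ ZMod p :=
    { toFun := fun a => psi p v a
      map_zero' := psi_zero p v
      map_add' := fun a b => psi_add p v a b }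
  have hψ : ∀ a, ψ a = psi p v a := fun _ => rfl
  have hs : Function.Surjective ψ := by
    obtain ⟨a, -, ha⟩ := psi_dual p ⊥ v (fun h => hv (AddSubgroup.mem_bot.1 h))
    have h0 : ψ a ≠ 0 := by
      rw [hψ, psi_comm]
      exact ha
    intro x
    refine ⟨(x * (ψ a)⁻¹).val • a, ?_⟩
    rw [map_nsmul, nsmul_eq_mul, ZMod.natCast_val, ZMod.cast_id, mul_assoc,
      inv_mul_cancel₀ h0, mul_one]
  have h1 : Nat.card ψ.ker * ψ.ker.index = Nat.card (Fin r → F) := AddSubgroup.card_mul_index _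
  have h2 : ψ.ker.index = p := by
    rw [AddSubgroup.index_ker, AddMonoidHom.range_eq_top.2 hs]
    rw [Nat.card_congr AddSubgroup.topEquiv.toEquiv, Nat.card_zmod]
  have h3 : Nat.card ψ.ker = (univ.filter fun a : Fin r → F => psi p a v = 0).card := by
    rw [Nat.card_eq_fintype_card, Fintype.card_subtype]
    congr 1
    ext a
    simp only [Finset.mem_filter, Finset.mem_univ, true_and]
    rw [AddMonoidHom.mem_ker, hψ, psi_comm]
  rw [h2, h3, Nat.card_eq_fintype_card] at h1
  have h4 : (univ.filter fun a : Fin r → F => psi p a v = 0).card +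
      (univ.filter fun a : Fin r → F => psi p a v ≠ 0).card = Fintype.card (Fin r → F) := by
    rw [← Finset.card_univ]
    exact Finset.card_filter_add_card_filter_not _
  have h5 : ((univ.filter fun a : Fin r → F => psi p a v = 0).card : ℤ) * p =
      (Fintype.card (Fin r → F) : ℤ) := by exact_mod_cast h1
  have h6 : ((univ.filter fun a : Fin r → F => psi p a v = 0).card : ℤ) +
      ((univ.filter fun a : Fin r → F => psi p a v ≠ 0).card : ℤ) =
        (Fintype.card (Fin r → F) : ℤ) := by exact_mod_cast h4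
  linear_combination (p : ℤ) * h6 - h5

end count

section num

variable {k L : Type} [Field k] [Field L] [Algebra k L]

/-- the pole of `Y ^ p - Y` bounds the pole of `Y` -/
theorem as_low (P : Place k L) {p B : ℕ} (hp : 2 ≤ p) {Y z : L} (hY : Y ≠ 0)
    (hz : Y ^ p - Y = z) (hB : z = 0 ∨ -(B : ℤ) ≤ P.ord z) : (p : ℤ) * -P.ord Y ≤ B := by
  rcases le_or_gt 0 (P.ord Y) with h | h
  · have h1 : (p : ℤ) * -P.ord Y ≤ 0 :=
      mul_nonpos_of_nonneg_of_nonpos (by positivity) (by linarith)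
    have h2 : (0 : ℤ) ≤ B := by positivity
    linarith
  · have h1 : P.Ge (-Y) (P.ord (Y ^ p) + 1) := by
      refine P.ge_neg (Or.inr ?_)
      rw [P.ord_pow hY]
      have : (2 : ℤ) ≤ p := by exact_mod_cast hp
      nlinarith
    obtain ⟨h2, h3⟩ := P.ord_add_of_lt (pow_ne_zero p hY) h1
    rw [← sub_eq_add_neg, hz] at h2 h3
    rcases hB with h4 | h4
    · exact absurd h4 h2
    · rw [h3, P.ord_pow hY] at h4
      linarith

end num

open UMRH in
theorem smb_fin (hHQI : S_HQI) (p : ℕ) (k F L G : Type) [Field k] [IsAlgClosed k] [Field F]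
    [Algebra F k] [Field L] [Algebra k L] [Group G] [Fintype G] (r f q B : ℕ) (P : Place k L)
    (ρ : G →* (L ≃ₐ[k] L)) (W M : Subgroup G) (c : G → Fin r → F) (Z : Fin r → L)
    (hp : p.Prime) (hch : CharP k p) (_hf : 1 ≤ f) (hq : q = p ^ f) (hF : Nat.card F = q)
    (hinj : Function.Injective ρ) (hram : ∀ g ∈ W, g ∈ ram P ρ 1)
    (hc : ∀ g ∈ W, ∀ h ∈ W, c (g * h) = c g + c h)
    (hM : ∀ g, g ∈ M ↔ g ∈ W ∧ c g = 0)
    (hact : ∀ g ∈ W, ∀ i, ρ g (Z i) = Z i + cst k F L (c g i))
    (hB : ∀ i, Z i ^ q - Z i = 0 ∨ -(B : ℤ) ≤ P.ord (Z i ^ q - Z i)) :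
    (Nat.card W : ℤ) * sm (fun g => P.b (ρ g)) {g | g ∈ W ∧ g ∉ M} ≤
      ((Nat.card W : ℤ) - Nat.card M) * B := by
  classical
  have : Fact p.Prime := ⟨hp⟩
  have : CharP L p := charP_of_injective_algebraMap (algebraMap k L).injective p
  have : CharP F p := (algebraMap F k).charP (algebraMap F k).injective p
  have : Finite F := by
    refine Nat.finite_of_card_ne_zero ?_
    rw [hF, hq]
    exact pow_ne_zero _ hp.ne_zero
  have hFt : Fintype F := Fintype.ofFinite F
  let _ : Algebra (ZMod p) F := ZMod.algebra F p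
  have hc1 : c 1 = 0 := by
    have h1 := hc 1 W.one_mem 1 W.one_mem
    rw [mul_one] at h1
    exact left_eq_add.1 h1
  have hcinv : ∀ g ∈ W, c g⁻¹ = -c g := by
    intro g hg
    have h1 := hc g hg g⁻¹ (W.inv_mem hg)
    rw [mul_inv_cancel, hc1] at h1
    exact (neg_eq_of_add_eq_zero_right h1.symm).symm
  have hp0 : (0 : ℤ) < p := by exact_mod_cast hp.pos
  have hp1 : (1 : ℤ) < p := by exact_mod_cast hp.one_lt
  -- the kernels
  let A : (Fin r → F) → Subgroup G := fun a =>
    { carrier := {g | g ∈ W ∧ psi p a (c g) = 0}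
      one_mem' := ⟨W.one_mem, by rw [hc1, psi_zero]⟩
      mul_mem' := by
        rintro g g' ⟨hg, hg1⟩ ⟨hg', hg1'⟩
        exact ⟨W.mul_mem hg hg', by rw [hc g hg g' hg', psi_add, hg1, hg1', add_zero]⟩
      inv_mem' := by
        rintro g ⟨hg, hg1⟩
        exact ⟨W.inv_mem hg, by rw [hcinv g hg, psi_neg, hg1, neg_zero]⟩ }
  have hA : ∀ a g, g ∈ A a ↔ g ∈ W ∧ psi p a (c g) = 0 := fun a g => Iff.rfl
  have hAW : ∀ a, A a ≤ W := fun a g hg => ((hA a g).1 hg).1
  have hcard : ∀ a, (∃ g ∈ W, psi p a (c g) ≠ 0) → Nat.card W = p * Nat.card (A a) := by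
    rintro a ⟨g, hg, hg1⟩
    let φ : W →* Multiplicative (ZMod p) :=
      { toFun := fun g => Multiplicative.ofAdd (psi p a (c g))
        map_one' := by
          rw [OneMemClass.coe_one, hc1, psi_zero]
          rfl
        map_mul' := fun g h => by
          rw [Subgroup.coe_mul, hc g g.2 h h.2, psi_add]
          rfl }
    have hM : Nat.card (Multiplicative (ZMod p)) = p := by
      rw [Nat.card_congr Multiplicative.toAdd, Nat.card_zmod]
    have hs : Function.Surjective φ := by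
      rw [← MonoidHom.range_eq_top]
      have h3 := Subgroup.card_subgroup_dvd_card φ.range
      rw [hM] at h3
      rcases (Nat.dvd_prime hp).1 h3 with h4 | h4
      · exfalso
        have h5 := Subgroup.eq_bot_of_card_eq _ h4
        have h6 : φ ⟨g, hg⟩ ∈ φ.range := ⟨_, rfl⟩
        rw [h5, Subgroup.mem_bot] at h6
        exact hg1 h6
      · exact Subgroup.eq_top_of_card_eq _ (h4.trans hM.symm)
    have h1 := card_ker W (A a) φ hs (fun g => by
      rw [hA]
      constructor
      · rintro ⟨h1, h2⟩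
        exact ⟨h1, h2⟩
      · rintro ⟨h1, h2⟩
        exact ⟨h1, h2⟩)
    rwa [hM] at h1
  have hnormal : ∀ a, ∀ g ∈ W, ∀ n ∈ A a, g * n * g⁻¹ ∈ A a := by
    intro a g hg n hn
    obtain ⟨hn1, hn2⟩ := (hA a n).1 hn
    refine (hA a _).2 ⟨W.mul_mem (W.mul_mem hg hn1) (W.inv_mem hg), ?_⟩
    rw [hc _ (W.mul_mem hg hn1) _ (W.inv_mem hg), hc g hg n hn1, hcinv g hg, psi_add, psi_add,
      psi_neg, hn2]
    ring
  have hval : ∀ x : ZMod p, x ≠ 0 → algebraMap F k (algebraMap (ZMod p) F x) ≠ 0 := by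
    intro x hx h
    exact hx ((map_eq_zero _).1 ((map_eq_zero _).1 h))
  -- the coset sums
  have hsum : ∀ a, ∀ g ∈ W, g ∉ A a →
      (p : ℤ) * sm (fun x => P.b (ρ x)) {x | g⁻¹ * x ∈ A a} ≤ B := by
    intro a g hg hgA
    have hg1 : psi p a (c g) ≠ 0 := fun h => hgA ((hA a g).2 ⟨hg, h⟩)
    obtain ⟨Y, hY1, hY2⟩ := as_gen (p := p) hq hF ρ W c Z hact a
    have hYg := hY2 g hg
    have hcon := hval _ hg1
    have hcon' : algebraMap k L (algebraMap F k (algebraMap (ZMod p) F (psi p a (c g)))) ≠ 0 :=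
      fun h => hcon ((map_eq_zero _).1 h)
    have hne : ρ g Y ≠ Y := by
      rw [hYg]
      intro h
      exact hcon' (add_eq_left.1 h)
    have hY0 : Y ≠ 0 := by
      rintro rfl
      exact hne (map_zero _)
    have h1 := hHQI p k L G P ρ (A a) W g Y hp hch hinj (hAW a) hram (hnormal a) hg hgA
      (fun n hn => by
        obtain ⟨hn1, hn2⟩ := (hA a n).1 hn
        rw [hY2 n hn1, hn2, map_zero, map_zero, map_zero, add_zero]) hY0 hne
    rw [hYg, add_sub_cancel_left, P.ord_const _ hcon] at h1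
    have hz : (∑ i, cst k F L (a i) * (Z i ^ q - Z i)) = 0 ∨
        -(B : ℤ) ≤ P.ord (∑ i, cst k F L (a i) * (Z i ^ q - Z i)) := by
      refine P.ge_sum _ _ _ fun i _ => ?_
      have h2 : P.Ge (cst k F L (a i)) 0 := by
        unfold cst
        exact P.ge_const _
      have h3 := P.ge_mul h2 (hB i)
      rwa [zero_add] at h3
    have h4 := as_low P hp.two_le hY0 hY1 hz
    have h5 : (p : ℤ) * sm (fun x => P.b (ρ x)) {x | g⁻¹ * x ∈ A a} ≤ p * -P.ord Y :=
      mul_le_mul_of_nonneg_left (by linarith) hp0.le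
    exact h5.trans h4
  -- the inequality for one functional
  have hone : ∀ a, (Nat.card W : ℤ) * sm (fun x => P.b (ρ x)) {x | x ∈ W ∧ x ∉ A a} ≤
      B * ((univ.filter fun x : G => x ∈ W ∧ x ∉ A a).card : ℤ) := by
    intro a
    by_cases hex : ∃ g ∈ W, psi p a (c g) ≠ 0
    · have h1 := sum_compl (fun x => P.b (ρ x)) (A a) W (hAW a)
      have h2 : (p : ℤ) * sm (fun x => sm (fun g => P.b (ρ g)) {y | x⁻¹ * y ∈ A a})
          {x | x ∈ W ∧ x ∉ A a} ≤ B * ((univ.filter fun x : G => x ∈ W ∧ x ∉ A a).card : ℤ) := by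
        rw [sm_filter, Finset.mul_sum]
        have h3 : ∀ x ∈ univ.filter (fun x : G => x ∈ W ∧ x ∉ A a),
            (p : ℤ) * sm (fun g => P.b (ρ g)) {y | x⁻¹ * y ∈ A a} ≤ B := by
          intro x hx
          have hx' : x ∈ W ∧ x ∉ A a := (Finset.mem_filter.1 hx).2
          exact hsum a x hx'.1 hx'.2
        refine (Finset.sum_le_card_nsmul _ _ _ h3).trans (le_of_eq ?_)
        rw [nsmul_eq_mul, mul_comm]
      rw [h1] at h2
      rw [hcard a hex]
      push_cast
      calc (p : ℤ) * (Nat.card (A a) : ℤ) * sm (fun x => P.b (ρ x)) {x | x ∈ W ∧ x ∉ A a} =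
            p * (Nat.card (A a) * sm (fun x => P.b (ρ x)) {x | x ∈ W ∧ x ∉ A a}) := by ring
        _ ≤ _ := h2
    · have h1 : ∀ x, ¬ (x ∈ W ∧ x ∉ A a) := by
        rintro x ⟨h1, h2⟩
        apply hex
        exact ⟨x, h1, fun h => h2 ((hA a x).2 ⟨h1, h⟩)⟩
      have h2 : sm (fun x => P.b (ρ x)) {x | x ∈ W ∧ x ∉ A a} = 0 := by
        rw [sm_filter, Finset.filter_false_of_mem (fun x _ => h1 x), Finset.sum_empty]
      rw [h2, mul_zero]
      positivity
  -- the sum over all functionals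
  have hκ : ∀ v : Fin r → F, v ≠ 0 →
      (p : ℤ) * ((univ.filter fun a : Fin r → F => psi p a v ≠ 0).card : ℤ) =
        ((p : ℤ) - 1) * (Fintype.card (Fin r → F) : ℤ) := fun v hv => count p v hv
  have hA0 : (0 : ℤ) < (Fintype.card (Fin r → F) : ℤ) := by
    exact_mod_cast Fintype.card_pos
  have hiff : ∀ a x, (x ∈ W ∧ x ∉ A a) ↔ (x ∈ W ∧ psi p a (c x) ≠ 0) := by
    intro a x
    rw [hA]
    tauto
  have hdouble : ∀ w : G → ℤ, (p : ℤ) * ∑ a : Fin r → F,
      ∑ x ∈ univ.filter (fun x : G => x ∈ W ∧ x ∉ A a), w x =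
        ((p : ℤ) - 1) * (Fintype.card (Fin r → F) : ℤ) *
          ∑ x ∈ univ.filter (fun x : G => x ∈ W ∧ x ∉ M), w x := by
    intro w
    have e1 : ∑ a : Fin r → F, ∑ x ∈ univ.filter (fun x : G => x ∈ W ∧ x ∉ A a), w x =
        ∑ x : G, ∑ a : Fin r → F, if x ∈ W ∧ psi p a (c x) ≠ 0 then w x else 0 := by
      rw [Finset.sum_comm]
      refine Finset.sum_congr rfl fun a _ => ?_
      rw [Finset.sum_filter]
      refine Finset.sum_congr rfl fun x _ => ?_
      simp only [hiff a x]
    rw [e1, Finset.mul_sum, Finset.sum_filter, Finset.mul_sum]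
    refine Finset.sum_congr rfl fun x _ => ?_
    by_cases hxW : x ∈ W
    · by_cases hxM : x ∈ M
      · have h0 : c x = 0 := ((hM x).1 hxM).2
        rw [if_neg (fun h => h.2 hxM), mul_zero]
        have : ∀ a : Fin r → F, (if x ∈ W ∧ psi p a (c x) ≠ 0 then w x else 0) = 0 := by
          intro a
          rw [if_neg]
          rintro ⟨-, h⟩
          rw [h0, psi_zero] at h
          exact h rfl
        simp only [this, Finset.sum_const_zero, mul_zero]
      · have h0 : c x ≠ 0 := fun h => hxM ((hM x).2 ⟨hxW, h⟩)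
        rw [if_pos ⟨hxW, hxM⟩]
        have e2 : ∑ a : Fin r → F, (if x ∈ W ∧ psi p a (c x) ≠ 0 then w x else 0) =
            ((univ.filter fun a : Fin r → F => psi p a (c x) ≠ 0).card : ℤ) * w x := by
          rw [← Finset.sum_filter]
          rw [Finset.sum_const, nsmul_eq_mul]
          congr 3
          ext a
          simp [hxW]
        rw [e2, ← mul_assoc, hκ _ h0]
    · rw [if_neg (fun h => hxW h.1), mul_zero]
      have : ∀ a : Fin r → F, (if x ∈ W ∧ psi p a (c x) ≠ 0 then w x else 0) = 0 := by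
        intro a
        rw [if_neg (fun h => hxW h.1)]
      simp only [this, Finset.sum_const_zero, mul_zero]
  have hsmeq : ∀ T : Subgroup G, sm (fun x => P.b (ρ x)) {x | x ∈ W ∧ x ∉ T} =
      ∑ x ∈ univ.filter (fun x : G => x ∈ W ∧ x ∉ T), P.b (ρ x) := by
    intro T
    exact sm_filter _ _
  have hall : (Nat.card W : ℤ) * ∑ a : Fin r → F,
      ∑ x ∈ univ.filter (fun x : G => x ∈ W ∧ x ∉ A a), P.b (ρ x) ≤
        B * ∑ a : Fin r → F, ∑ x ∈ univ.filter (fun x : G => x ∈ W ∧ x ∉ A a), (1 : ℤ) := by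
    rw [Finset.mul_sum, Finset.mul_sum]
    refine Finset.sum_le_sum fun a _ => ?_
    have h1 := hone a
    rw [hsmeq] at h1
    rw [Finset.sum_const, nsmul_eq_mul, mul_one]
    exact h1
  have h1 := mul_le_mul_of_nonneg_left hall hp0.le
  have h2 : (p : ℤ) * ((Nat.card W : ℤ) * ∑ a : Fin r → F,
      ∑ x ∈ univ.filter (fun x : G => x ∈ W ∧ x ∉ A a), P.b (ρ x)) =
        (((p : ℤ) - 1) * (Fintype.card (Fin r → F) : ℤ)) * ((Nat.card W : ℤ) *
          ∑ x ∈ univ.filter (fun x : G => x ∈ W ∧ x ∉ M), P.b (ρ x)) := by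
    have := hdouble (fun x => P.b (ρ x))
    linear_combination (Nat.card W : ℤ) * this
  have h3 : (p : ℤ) * (B * ∑ a : Fin r → F,
      ∑ x ∈ univ.filter (fun x : G => x ∈ W ∧ x ∉ A a), (1 : ℤ)) =
        (((p : ℤ) - 1) * (Fintype.card (Fin r → F) : ℤ)) * (B *
          ∑ x ∈ univ.filter (fun x : G => x ∈ W ∧ x ∉ M), (1 : ℤ)) := by
    have := hdouble (fun _ => 1)
    linear_combination (B : ℤ) * this
  rw [h2, h3] at h1
  have h4 : (0 : ℤ) < ((p : ℤ) - 1) * (Fintype.card (Fin r → F) : ℤ) :=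
    mul_pos (by linarith) hA0
  have h5 := le_of_mul_le_mul_left h1 h4
  have hMW : M ≤ W := fun g hg => ((hM g).1 hg).1
  have h6 : ∑ x ∈ univ.filter (fun x : G => x ∈ W ∧ x ∉ M), (1 : ℤ) =
      (Nat.card W : ℤ) - Nat.card M := by
    have := sm_const (G := G) 1 W M hMW
    rw [sm_filter, mul_one] at this
    exact this
  rw [hsmeq, mul_comm ((Nat.card W : ℤ) - Nat.card M) (B : ℤ), ← h6]
  exact h5

end SMBH

open SMBH in
/-- **SMB** -/
theorem smb_thm (hHQI : S_HQI) : S_SMB := by
  classical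
  intro p k F L G ι _ _ _ _ _ _ _ _ _ f q B P ρ W M c Z hp hch hf hq hF hinj hram hc hM hact hB
  let e := Fintype.equivFin ι
  refine smb_fin hHQI p k F L G (Fintype.card ι) f q B P ρ W M
    (fun g j => c g (e.symm j)) (fun j => Z (e.symm j)) hp hch hf hq hF hinj hram ?_ ?_ ?_ ?_
  · intro g hg h hh
    funext j
    have := congrFun (hc g hg h hh) (e.symm j)
    exact this
  · intro g
    rw [hM]
    refine and_congr_right fun _ => ?_
    constructor
    · intro h
      funext j
      rw [h]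
      rfl
    · intro h
      funext i
      have := congrFun h (e i)
      simpa using this
  · intro g hg j
    exact hact g hg (e.symm j)
  · intro j
    exact hB (e.symm j)

end Pool.CND
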